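import Pool.Agent.W712.RC.Torus

/-!
# A `C¹`-robust non-transverse heterodimensional cycle

There are a `C¹` diffeomorphism `f` of a four-dimensional torus `M` and transitive hyperbolic sets
`Λ`, `Γ` of `f`, of indices `2` and `3`, such that every `g` in a `C¹` neighbourhood of `f` has a
non-transverse heterodimensional cycle associated with the continuations `Λ_g`, `Γ_g`.

The definitions `E` (the space `ℝ⁴`), `Ltc` (the lattice), `MM` (the torus `ℝ⁴/Ltc`), `pr` (the
covering map) and `Stab` are in `Pool/Agent/W712/RC/Defs.lean`; the definitions `IsLift`, `IsDiffeo`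
and `CkClose` (the `C^k` distance) are in `Pool/Agent/H728R2/OS/Defs.lean`.

Idea of the construction. `Λ` is a two-dimensional torus `𝕋² × {0} × {1/2}` on which `f` is a linear
Anosov automorphism `A`; `y` is a stable and `z` an unstable direction. `Γ` is a fixed point with one
unstable direction. The unstable leaves of `Λ` have dimension two; they fill up a three-dimensional
set, the stable direction of `A` being the transverse parameter `c`. A fold brings a piece of this
set to the three-dimensional stable manifold of `Γ`, so that the signed distance `J(c, ·)` of the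
leaf `c` to that manifold is positive on the boundary of a rectangle for all `c`, has a zero for some
`c` and is positive for large `c`. At the maximal value `c*` of `c` for which `J(c, ·)` has a zero,
the leaf `c*` touches the stable manifold from one side and is therefore tangent to it. All this is
stable under `C¹` small perturbations, because only the continuity of the leaves with respect to `c`
is used. The unstable curve of `Γ` crosses the three-dimensional stable set of `Λ`.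
-/

set_option autoImplicit false

open Set Filter Topology
open Pool.Agent.H728R2.OS (IsLift IsDiffeo CkClose)
open Pool.Agent.W712.RC

namespace Pool.Agent.Results.MP_6961e8_an.RobustCycle

section General

variable {V X : Type*} [NormedAddCommGroup V] [NormedSpace ℝ V] [PseudoMetricSpace X]

/-- `W^s(S)`: the points whose forward orbit is asymptotic to the forward orbit of a point of `S`.
The unstable set `W^u(S)` of `f` is `Ws f.symm S`. -/
def Ws (f : X ≃ₜ X) (S : Set X) : Set X :=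
  {y | ∃ x ∈ S, Tendsto (fun n : ℕ => dist (f^[n] x) (f^[n] y)) atTop (𝓝 0)}

/-- `S` is a transitive hyperbolic set of `f` of index `k`: it is compact and invariant, it contains
a dense (forward) orbit, and with `C¹` lifts `F` of `f` and `H` of `f⁻¹` through the covering `π`,
at every point `z` over `S` the tangent space is the direct sum of `E^s = Stab F z`, the vectors `v`
with `Df^n v → 0`, of dimension `k`, and of `E^u = Stab H z`, the vectors with `Df^{-n} v → 0`, and
the two convergences are uniformly exponential. -/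
structure TransHyp (π : V → X) (f : X ≃ₜ X) (S : Set X) (k : ℕ) : Prop where
  compact : IsCompact S
  invariant : f '' S = S
  transitive : ∃ x ∈ S, S ⊆ closure (range fun n : ℕ => f^[n] x)
  hyperbolic : ∃ F H : V → V, ContDiff ℝ 1 F ∧ ContDiff ℝ 1 H ∧ IsLift π F f ∧
    IsLift π H f.symm ∧ ∃ c μ : ℝ, 0 < c ∧ 0 < μ ∧ μ < 1 ∧ ∀ z, π z ∈ S →
      IsCompl (Stab F z) (Stab H z) ∧ Module.finrank ℝ (Stab F z) = k ∧
      ∀ n : ℕ, (∀ v ∈ Stab F z, ‖fderiv ℝ (F^[n]) z v‖ ≤ c * μ ^ n * ‖v‖) ∧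
        ∀ v ∈ Stab H z, ‖fderiv ℝ (H^[n]) z v‖ ≤ c * μ ^ n * ‖v‖

/-- There is a tangency `x ∈ W^u(S) ∩ W^s(S')`, where `k` and `l` are the indices of `S` and `S'`.
The tangent space of `W^u` at `x` is `Stab H z`, the vectors `v` with `Df^{-n} v → 0`, of dimension
`d - k`, the one of `W^s` is `Stab F z`, the vectors with `Df^n v → 0`, of dimension `l`, and the
dimension of the intersection exceeds `max 0 (dim W^u + dim W^s - d)`. -/
def HasTangency (π : V → X) (f : X ≃ₜ X) (S S' : Set X) (k l : ℕ) : Prop :=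
  ∃ F H : V → V, ContDiff ℝ 1 F ∧ ContDiff ℝ 1 H ∧ IsLift π F f ∧ IsLift π H f.symm ∧
    ∃ z, π z ∈ Ws f.symm S ∩ Ws f S' ∧
      Module.finrank ℝ (Stab H z) + k = Module.finrank ℝ V ∧ Module.finrank ℝ (Stab F z) = l ∧
      0 < Module.finrank ℝ (Stab H z ⊓ Stab F z : Submodule ℝ V) ∧
      Module.finrank ℝ (Stab H z) + Module.finrank ℝ (Stab F z) <
        Module.finrank ℝ (Stab H z ⊓ Stab F z : Submodule ℝ V) + Module.finrank ℝ V

/-- `f` has a non-transverse heterodimensional cycle associated with the transitive hyperbolic sets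
`Λ` and `Γ` of indices `k ≠ l`. -/
structure NonTransverseCycle (π : V → X) (f : X ≃ₜ X) (Λ Γ : Set X) (k l : ℕ) : Prop where
  hypΛ : TransHyp π f Λ k
  hypΓ : TransHyp π f Γ l
  index_ne : k ≠ l
  inter₁ : (Ws f.symm Λ ∩ Ws f Γ).Nonempty
  inter₂ : (Ws f.symm Γ ∩ Ws f Λ).Nonempty
  tangency : HasTangency π f Λ Γ k l

/-- `h : Λ → X` is the `ε`-small hyperbolic continuation for `g` of the set `Λ` of `f`: it is
continuous and injective, it conjugates `f` to `g`, it is `ε`-close to the inclusion, and it is the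
only map `ε₀`-close to the inclusion that conjugates `f` to `g`. -/
structure IsContinuation (ε₀ ε : ℝ) (f g : X ≃ₜ X) (Λ : Set X) (h : X → X) : Prop where
  cont : ContinuousOn h Λ
  inj : InjOn h Λ
  conj : ∀ x ∈ Λ, h (f x) = g (h x)
  close : ∀ x ∈ Λ, dist (h x) x < ε
  unique : ∀ h' : X → X, (∀ x ∈ Λ, h' (f x) = g (h' x)) → (∀ x ∈ Λ, dist (h' x) x < ε₀) →
    ∀ x ∈ Λ, h' x = h x

/-- `f` has a `C¹`-robust non-transverse heterodimensional cycle associated with `Λ` and `Γ`: every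
diffeomorphism `g` of a `C¹` neighbourhood of `f` has a non-transverse heterodimensional cycle
associated with the continuations `hΛ '' Λ` and `hΓ '' Γ`; these are arbitrarily small if `g` is
close to `f`. -/
def RobustNonTransverseCycle (π : V → X) (f : X ≃ₜ X) (Λ Γ : Set X) (k l : ℕ) : Prop :=
  ∃ ε₀ > 0, ∀ ε > 0, ∃ δ > 0, ∀ g : X ≃ₜ X, IsDiffeo π 1 g → CkClose π 1 δ f g →
    ∃ hΛ hΓ : X → X, IsContinuation ε₀ ε f g Λ hΛ ∧ IsContinuation ε₀ ε f g Γ hΓ ∧
      NonTransverseCycle π g (hΛ '' Λ) (hΓ '' Γ) k l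

end General

/-! ### Proof -/

theorem ws_mem {g : MM ≃ₜ MM} {G : E → E} (hG : IsLift pr G g) {x y : E} {S : Set MM}
    (hx : pr x ∈ S) (h : Tendsto (fun n : ℕ => ‖G^[n] x - G^[n] y‖) atTop (𝓝 0)) :
    pr y ∈ Ws g S := by
  refine ⟨pr x, hx, squeeze_zero (fun _ => dist_nonneg) (fun n => ?_) h⟩
  rw [← lift_iter hG, ← lift_iter hG]
  exact dist_pr _ _

theorem tend_geom (C : ℝ) : Tendsto (fun n : ℕ => (2 / 3 : ℝ) ^ n * C) atTop (𝓝 0) := by
  have := (tendsto_pow_atTop_nhds_zero_of_lt_one (r := (2 / 3 : ℝ)) (by norm_num)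
    (by norm_num)).mul_const C
  simpa using this

theorem card_L : Fintype.card {i // (!ZL.e i) = true} = 2 := rfl
theorem card_L' : Fintype.card {i // ZL.e i = true} = 2 := rfl
theorem card_G : Fintype.card {i // (!ZG.e i) = true} = 3 := rfl

section Main

variable {S : PSys} {g : MM ≃ₜ MM} (hG : IsLift pr S.G g) (hH : IsLift pr S.H g.symm)

include hG in
theorem g_hL (θ : ℝ × ℝ) : g (pr (hL S θ)) = pr (hL S (AT θ)) := by
  rw [← hG, hL_AT]

include hG in
theorem g_hL_iter (θ : ℝ × ℝ) (n : ℕ) : g^[n] (pr (hL S θ)) = pr (hL S (AT^[n] θ)) := by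
  induction n with
  | zero => rfl
  | succ n ih => rw [Function.iterate_succ_apply', ih, g_hL hG, Function.iterate_succ_apply']

include hG hH in
theorem transHyp_L : TransHyp pr g (hΛ S '' LL) 2 where
  compact := LL_compact.image (hΛ_cont S)
  invariant := by
    rw [LL_image]
    apply Subset.antisymm
    · rintro _ ⟨_, ⟨_, ⟨θ, rfl⟩, rfl⟩, rfl⟩
      exact ⟨_, ⟨AT θ, rfl⟩, (g_hL hG θ).symm⟩
    · rintro _ ⟨_, ⟨θ, rfl⟩, rfl⟩
      refine ⟨_, ⟨_, ⟨((ph - 1) * θ.1, -ph * θ.2), rfl⟩, rfl⟩, ?_⟩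
      rw [g_hL hG]
      have : AT ((ph - 1) * θ.1, -ph * θ.2) = θ := by
        unfold AT
        ext
        · simp only; linear_combination θ.1 * ph_sq
        · simp only; linear_combination θ.2 * ph_sq
      rw [this]
  transitive := by
    rw [LL_image]
    obtain ⟨θ, hθ⟩ := dense_orbit
    refine ⟨_, ⟨_, ⟨θ, rfl⟩, rfl⟩, ?_⟩
    rintro _ ⟨_, ⟨η, rfl⟩, rfl⟩
    have hc : Continuous fun η => pr (hL S η) := pr_cont.comp (hL_cont S)
    have h1 : pr (hL S η) ∈ (fun η => pr (hL S η)) ''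
        closure {η : ℝ × ℝ | ∃ k : ℕ, ∃ l, L2 l ∧ η = AT^[k] θ + l} := by
      rw [hθ.closure_eq]
      exact ⟨η, mem_univ _, rfl⟩
    refine closure_mono ?_ (image_closure_subset_closure_image hc h1)
    rintro _ ⟨_, ⟨k, l, hl, rfl⟩, rfl⟩
    refine ⟨k, ?_⟩
    show g^[k] (pr (hL S θ)) = pr (hL S (AT^[k] θ + l))
    rw [g_hL_iter hG]
    have := hL_add S (a := l.1) (b := l.2) hl (AT^[k] θ)
    rw [show ((l.1, l.2) : ℝ × ℝ) = l from rfl] at this
    rw [this, pr_add hl]
  hyperbolic := by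
    refine ⟨S.G, S.H, S.hG, S.hH, hG, hH, 1, 2 / 3, one_pos, by norm_num, by norm_num, ?_⟩
    rw [LL_image]
    rintro z ⟨_, ⟨θ, rfl⟩, hz⟩
    have hl := pr_eq.1 hz
    obtain ⟨l, rfl⟩ : ∃ l, z = hL S θ + l := ⟨z - hL S θ, by abel⟩
    rw [add_sub_cancel_left] at hl
    have zG : ∀ n : ℕ, S.G^[n] (hL S θ) ∈ ZL.O := fun n => by
      rw [hL_iter]; exact xL_zone S _ _
    have zH : ∀ n : ℕ, S.H^[n + 1] (hL S θ) ∈ ZL.O := fun n => by
      rw [hL_iterH]; exact xL_zone S _ _
    rw [stab_G_add S _ _ hl, stab_H_add S _ _ hl]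
    refine ⟨Sys.isCompl zG zH, ?_, fun n => ⟨fun v hv => ?_, fun v hv => ?_⟩⟩
    · rw [Sys.stab_finrank zG, card_L]
    · rw [fderiv_G_add S _ _ _ hl, one_mul]
      exact Sys.stab_decay zG hv n
    · rw [fderiv_H_add S _ _ _ hl, one_mul]
      exact Sys.bstab_decay zH hv n

include hG hH in
theorem transHyp_G : TransHyp pr g {pr (ga S)} 3 where
  compact := isCompact_singleton
  invariant := by
    rw [image_singleton, ← hG, ga_fix]
  transitive := by
    refine ⟨_, rfl, ?_⟩
    rw [singleton_subset_iff]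
    exact subset_closure ⟨0, rfl⟩
  hyperbolic := by
    refine ⟨S.G, S.H, S.hG, S.hH, hG, hH, 1, 2 / 3, one_pos, by norm_num, by norm_num, ?_⟩
    intro z hz
    have hl := pr_eq.1 (mem_singleton_iff.1 hz).symm
    obtain ⟨l, rfl⟩ : ∃ l, z = ga S + l := ⟨z - ga S, by abel⟩
    rw [add_sub_cancel_left] at hl
    have zG : ∀ n : ℕ, S.G^[n] (ga S) ∈ ZG.O := fun n => by
      rw [ga_iter]; exact ga_zone S
    have zH : ∀ n : ℕ, S.H^[n + 1] (ga S) ∈ ZG.O := fun n => by
      rw [ga_iterH]; exact ga_zone S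
    rw [stab_G_add S _ _ hl, stab_H_add S _ _ hl]
    refine ⟨Sys.isCompl zG zH, ?_, fun n => ⟨fun v hv => ?_, fun v hv => ?_⟩⟩
    · rw [Sys.stab_finrank zG, card_G]
    · rw [fderiv_G_add S _ _ _ hl, one_mul]
      exact Sys.stab_decay zG hv n
    · rw [fderiv_H_add S _ _ _ hl, one_mul]
      exact Sys.bstab_decay zH hv n

include hG hH in
theorem main_tangency : HasTangency pr g (hΛ S '' LL) {pr (ga S)} 2 3 := by
  obtain ⟨c, u, z, hz, hreg, hgr, hle⟩ := tangency S
  refine ⟨S.G, S.H, S.hG, S.hH, hG, hH, xP S (c, u, z) 0, ⟨?_, ?_⟩, ?_⟩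
  · rw [LL_image]
    refine ws_mem hH (x := hL S (0, c)) ⟨_, ⟨(0, c), rfl⟩, rfl⟩ ?_
    refine squeeze_zero (fun _ => norm_nonneg _) (fun n => ?_)
      (tend_geom ‖xP S (c, u, z) 0 - xL S (0, c) 0‖)
    rw [hL_iterH, xP_iter S hz, norm_sub_rev]
    exact xP_asymp S hz n
  · refine ws_mem hG (x := ga S) rfl ?_
    rw [← tendsto_add_atTop_iff_nat 1]
    refine squeeze_zero (fun _ => norm_nonneg _) (fun n => ?_)
      (tend_geom ‖xS S (S.G (xP S (c, u, z) 0)) 0 - ga S‖)
    have h := xS_iter S hreg n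
    rw [← hgr] at h
    rw [ga_iter, Function.iterate_succ_apply, h, norm_sub_rev]
    exact xS_asymp S hreg n
  · have f1 : Module.finrank ℝ (Stab S.H (xP S (c, u, z) 0)) = 2 := by
      rw [Sys.bstab_finrank (S := S.toSys) (Z := ZL) (xP_zone' S hz), card_L']
    have f2 : Module.finrank ℝ (Stab S.G (xP S (c, u, z) 0)) = 3 := by
      rw [finrank_stab_G, Sys.stab_finrank (S := S.toSys) (Z := ZG) (fun n => ?_), card_G]
      have h := xS_iter S hreg n
      rw [← hgr] at h
      rw [h]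
      exact xS_zone S hreg n
    rw [inf_eq_left.2 hle, f1, f2]
    have f4 : Module.finrank ℝ E = 4 := by simp
    rw [f4]
    norm_num

include hG hH in
theorem main_inter : (Ws g.symm {pr (ga S)} ∩ Ws g (hΛ S '' LL)).Nonempty := by
  obtain ⟨t, ht, θ, C, h⟩ := crossing S
  refine ⟨pr (S.G (xW S t 0)), ?_, ?_⟩
  · refine ws_mem hH (x := ga S) rfl ?_
    rw [← tendsto_add_atTop_iff_nat 1]
    refine squeeze_zero (fun _ => norm_nonneg _) (fun n => ?_) (tend_geom ‖xW S t 0 - ga S‖)
    rw [ga_iterH, Function.iterate_succ_apply, S.HG, xW_iter S ht, norm_sub_rev]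
    exact xW_asymp S ht n
  · rw [LL_image]
    refine ws_mem hG (x := hL S θ) ⟨_, ⟨θ, rfl⟩, rfl⟩ ?_
    refine squeeze_zero (fun _ => norm_nonneg _) (fun n => ?_) (tend_geom C)
    rw [hL_iter, norm_sub_rev]
    exact h n

theorem GG_image : (fun _ : MM => pr (ga S)) '' GG = {pr (ga S)} := by
  unfold GG
  rw [image_singleton]

include hG hH in
theorem main_cycle : NonTransverseCycle pr g (hΛ S '' LL) ((fun _ : MM => pr (ga S)) '' GG) 2 3 := by
  rw [GG_image]
  have ht := main_tangency hG hH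
  obtain ⟨-, -, -, -, -, -, z, hz, -⟩ := id ht
  exact ⟨transHyp_L hG hH, transHyp_G hG hH, by norm_num, ⟨_, hz⟩, main_inter hG hH, ht⟩

theorem FF_L {x : E} (h2 : x 2 = 0) (h3 : x 3 = 1 / 2) :
    FF x = ![ph * x 0, (1 - ph) * x 1, 0, 1 / 2] := by
  have hz : x ∈ ZL.O := by
    constructor
    · rw [h2]; norm_num
    · rw [h3]; norm_num
  refine ext4 ?_ ?_ ?_ ?_
  · have : FF x 0 = ph * x 0 + 0 := ZL.hF x hz 0
    rw [this, add_zero]; rfl
  · have : FF x 1 = (1 - ph) * x 1 + 0 := ZL.hF x hz 1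
    rw [this, add_zero]; rfl
  · have : FF x 2 = 1 / 8 * x 2 + 0 := ZL.hF x hz 2
    rw [this, h2, v4_2]; norm_num
  · have : FF x 3 = 11 / 4 * x 3 + -(7 / 8) := ZL.hF x hz 3
    rw [this, h3, v4_3]; norm_num

theorem rL_mem (θ : ℝ × ℝ) (n : ℤ) : pr (rL θ n) ∈ LL := ⟨_, ⟨rfl, rfl⟩, rfl⟩

theorem FF_rL (θ : ℝ × ℝ) (n : ℤ) : FF (rL θ n) = rL θ (n + 1) := by
  funext i
  rw [rL_step, ZL.hF _ (zl_of_close (θ := θ) (n := n) (by rw [sub_self, norm_zero]; norm_num)) i]

include hG in
theorem cont_L {ε : ℝ} (hε : 3 * S.δ < ε) : IsContinuation (1 / 20) ε ff g LL (hΛ S) where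
  cont := (hΛ_cont S).continuousOn
  inj := by
    rintro _ ⟨x, ⟨h2, h3⟩, rfl⟩ _ ⟨y, ⟨k2, k3⟩, rfl⟩ h
    rw [hΛ_apply S h2 h3, hΛ_apply S k2 k3] at h
    have hl := pr_eq.1 h
    have h1 := hL_inj S (θ := (x 0, x 1)) (θ' := (y 0, y 1)) hl (by abel)
    rw [h1] at hl
    rw [pr_eq]
    convert hl using 1
    refine ext4 rfl rfl ?_ ?_
    · show y 2 - x 2 = 0
      rw [h2, k2, sub_self]
    · show y 3 - x 3 = 0
      rw [h3, k3, sub_self]
  conj := by
    rintro _ ⟨x, ⟨h2, h3⟩, rfl⟩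
    have h1 : ff (pr x) = pr (FF x) := rfl
    rw [h1, FF_L h2 h3, hΛ_apply S rfl rfl, hΛ_apply S h2 h3, g_hL hG]
    rfl
  close := by
    rintro _ ⟨x, ⟨h2, h3⟩, rfl⟩
    rw [hΛ_apply S h2 h3]
    refine ((dist_pr _ _).trans ?_).trans_lt hε
    have := hL_close S (x 0, x 1)
    have hx : x = ![x 0, x 1, 0, 1 / 2] := ext4 (y := ![x 0, x 1, 0, 1 / 2]) rfl rfl h2 h3
    rw [← hx] at this
    exact this
  unique := by
    rintro h' hconj hclose _ ⟨x, ⟨h2, h3⟩, rfl⟩
    rw [hΛ_apply S h2 h3]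
    set θ : ℝ × ℝ := (x 0, x 1) with hθ
    choose w hw hwc using fun n : ℤ => exists_near (hclose _ (rL_mem θ n))
    have hd := S.δ1
    have g1 := ph_gt
    have g2 := ph_lt
    have hstep : ∀ n, S.G (w n) = w (n + 1) := by
      intro n
      have h1 : pr (S.G (w n)) = pr (w (n + 1)) := by
        rw [hG, hw, hw, ← hconj _ (rL_mem θ n)]
        show h' (pr (FF (rL θ n))) = _
        rw [FF_rL]
      have h3 : ‖FF (w n) - rL θ (n + 1)‖ ≤ 3 * (1 / 20) := by
        rw [pi_norm_le_iff_of_nonneg (by norm_num)]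
        intro i
        rw [Pi.sub_apply, rL_step, ZL.hF _ (zl_of_close (hwc n).le) i]
        have h4 : ZL.m i * w n i + ZL.b i - (ZL.m i * rL θ n i + ZL.b i) =
          ZL.m i * (w n i - rL θ n i) := by ring
        rw [h4, norm_mul]
        have h5 : ‖w n i - rL θ n i‖ ≤ 1 / 20 := coord_le (hwc n).le i
        have h6 : ‖ZL.m i‖ ≤ 3 := by
          rw [Real.norm_eq_abs]
          fin_cases i
          · show |ph| ≤ 3
            rw [abs_of_pos ph_pos]; linarith
          · show |1 - ph| ≤ 3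
            rw [abs_of_neg (by linarith)]; linarith
          · show |(1 / 8 : ℝ)| ≤ 3
            rw [abs_of_pos (by norm_num)]; norm_num
          · show |(11 / 4 : ℝ)| ≤ 3
            rw [abs_of_pos (by norm_num)]; norm_num
        exact mul_le_mul h6 h5 (norm_nonneg _) (by norm_num)
      have h4 : w (n + 1) - S.G (w n) ∈ Ltc := pr_eq.1 h1
      have h5 : ‖w (n + 1) - S.G (w n)‖ < 1 := by
        have e1 := S.bd (w n)
        have e2 := hwc (n + 1)
        calc ‖w (n + 1) - S.G (w n)‖ = ‖(w (n + 1) - rL θ (n + 1)) + (rL θ (n + 1) - FF (w n)) +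
              (FF (w n) - S.G (w n))‖ := by congr 1; abel
          _ ≤ ‖w (n + 1) - rL θ (n + 1)‖ + ‖rL θ (n + 1) - FF (w n)‖ + ‖FF (w n) - S.G (w n)‖ :=
              norm_add₃_le
          _ < 1 := by
              rw [norm_sub_rev (rL θ (n + 1)), norm_sub_rev (FF (w n)) (S.G (w n))]
              linarith
      exact (sub_eq_zero.1 (Lat_small h4 h5)).symm
    have h7 := xL_unique S (θ := θ) (y := w) hstep (fun n => (hwc n).le) 0
    have h8 : pr x = pr (rL θ 0) := by
      congr 1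
      refine ext4 ?_ ?_ h2 h3
      · simp [rL, hθ]
      · simp [rL, hθ]
    rw [h8, ← hw 0, h7]
    rfl

theorem FF_zero : FF 0 = 0 := by
  have hz : (0 : E) ∈ ZG.O := zg_of_small (by simp)
  funext i
  rw [ZG.hF 0 hz i]
  simp [ZG]

include hG in
theorem cont_G {ε : ℝ} (hε : 3 * S.δ < ε) :
    IsContinuation (1 / 20) ε ff g GG (fun _ => pr (ga S)) where
  cont := continuousOn_const
  inj := by
    intro x hx y hy _
    rw [mem_singleton_iff.1 hx, mem_singleton_iff.1 hy]
  conj := by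
    intro x _
    rw [← hG, ga_fix]
  close := by
    intro x hx
    rw [mem_singleton_iff.1 hx]
    refine ((dist_pr _ _).trans ?_).trans_lt hε
    rw [sub_zero]
    exact ga_close S
  unique := by
    intro h' hconj hclose x hx
    have hd := S.δ1
    rw [mem_singleton_iff.1 hx]
    have h1 := hconj (pr 0) rfl
    have h2 : ff (pr 0) = pr 0 := by
      show pr (FF 0) = pr 0
      rw [FF_zero]
    rw [h2] at h1
    obtain ⟨w, hw, hwc⟩ := exists_near (hclose (pr 0) rfl)
    rw [sub_zero] at hwc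
    have h3 : ‖FF w‖ ≤ 2 * (1 / 20) := by
      have g1 := ph_gt
      have g2 := ph_lt
      rw [pi_norm_le_iff_of_nonneg (by norm_num)]
      intro i
      rw [ZG.hF w (zg_of_small hwc.le) i]
      have h5 : ‖w i‖ ≤ 1 / 20 := (norm_le_pi_norm w i).trans hwc.le
      have hb : ZG.b i = 0 := rfl
      rw [hb, add_zero, norm_mul]
      have h6 : ‖ZG.m i‖ ≤ 2 := by
        rw [Real.norm_eq_abs]
        fin_cases i
        · show |ph| ≤ 2
          rw [abs_of_pos ph_pos]; linarith
        · show |1 - ph| ≤ 2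
          rw [abs_of_neg (by linarith)]; linarith
        · show |(1 / 8 : ℝ)| ≤ 2
          rw [abs_of_pos (by norm_num)]; norm_num
        · show |(1 / 8 : ℝ)| ≤ 2
          rw [abs_of_pos (by norm_num)]; norm_num
      exact mul_le_mul h6 h5 (norm_nonneg _) (by norm_num)
    have h4 : w - S.G w ∈ Ltc := pr_eq.1 (by rw [hG, hw, ← h1])
    have h5 : ‖w - S.G w‖ < 1 := by
      have e1 := S.bd w
      calc ‖w - S.G w‖ = ‖w + -FF w + (FF w - S.G w)‖ := by congr 1; abel
        _ ≤ ‖w‖ + ‖-FF w‖ + ‖FF w - S.G w‖ := norm_add₃_le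
        _ < 1 := by
            rw [norm_neg, norm_sub_rev (FF w)]
            linarith
    have h6 : S.G w = w := (sub_eq_zero.1 (Lat_small h4 h5)).symm
    have h7 := ga_unique S (y := fun _ => w) (fun _ => h6) (fun _ => hwc.le) 0
    rw [← hw, ← h7]

end Main

/-- **There are `C¹`-robust non-transverse heterodimensional cycles.** -/
theorem result : ∃ (f : MM ≃ₜ MM) (Λ Γ : Set MM), IsDiffeo pr 1 f ∧
    NonTransverseCycle pr f Λ Γ 2 3 ∧ RobustNonTransverseCycle pr f Λ Γ 2 3 := by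
  have hrob : RobustNonTransverseCycle pr ff LL GG 2 3 := by
    refine ⟨1 / 20, by norm_num, fun ε hε => ⟨min (1 / 10000) (ε / 4), by positivity, ?_⟩⟩
    intro g hg hc
    obtain ⟨S, hSδ, hG, hH⟩ := exists_sys (min_le_left _ _) hg hc
    have h3 : 3 * S.δ < ε := by
      have := min_le_right (1 / 10000) (ε / 4)
      rw [hSδ]; linarith
    exact ⟨hΛ S, fun _ => pr (ga S), cont_L hG h3, cont_G hG h3, main_cycle hG hH⟩
  refine ⟨ff, LL, GG, ff_diffeo, ?_, hrob⟩
  obtain ⟨ε₀, hε₀, h⟩ := hrob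
  obtain ⟨δ, hδ, h⟩ := h ε₀ hε₀
  have hself : CkClose pr 1 δ ff ff := by
    refine ⟨FF, FF, by exact_mod_cast FF_cd, by exact_mod_cast FF_cd, ff_lift, ff_lift,
      fun j _ z => ?_⟩
    have : (fun w => FF w - FF w) = fun _ => (0 : E) := by funext w; simp
    rw [this]
    simpa using hδ
  obtain ⟨hΛ', hΓ', c1, c2, hcyc⟩ := h ff ff_diffeo hself
  have e1 : ∀ x ∈ LL, x = hΛ' x := c1.unique id (fun _ _ => rfl) (fun x _ => by simpa using hε₀)
  have e2 : ∀ x ∈ GG, x = hΓ' x := c2.unique id (fun _ _ => rfl) (fun x _ => by simpa using hε₀)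
  have i1 : hΛ' '' LL = LL :=
    (image_congr (g := id) fun x hx => (e1 x hx).symm).trans (image_id _)
  have i2 : hΓ' '' GG = GG :=
    (image_congr (g := id) fun x hx => (e2 x hx).symm).trans (image_id _)
  rwa [i1, i2] at hcyc

end Pool.Agent.Results.MP_6961e8_an.RobustCycle
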